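import Mathlib
import Pool.Agent.Helper247.UecPcp
import Pool.Agent.Helper247.Univ

/-!
# Recognising unique equality continuation instances of PCP is undecidable

The earlier solution of the companion problem (file `Pool/Agent/S15446.lean`) turns a Turing machine
and an input into a unique equality continuation instance which has a solution if and only if the
machine halts; every solution ends with one of two end dominoes. Here each end domino is doubled:
the new instance has two different letters with the same pair of images. If the machine halts, the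
two copies can both be used after a word `u` with `h(u) ≠ g(u)`; if it does not halt, no end domino
is ever applicable and the instance still has unique equality continuation.
-/

set_option autoImplicit false

namespace Pool.Agent.Results.MP_c472bb_lc.Undecidable

open Turing Relation Pool.Agent.Helper247 Pool.Agent.Helper247.Queue

/-- The image of the word `u` over the alphabet `{0, 1, 2, …}` under the morphism which maps the
letter `i` to the `i`-th word of the list `L`. -/
def im (L : List (List ℕ)) (u : List ℕ) : List ℕ := u.flatMap (fun i => L.getD i [])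

/-- Comparable words: one of them is a prefix of the other. -/
def Comparable (X Y : List ℕ) : Prop := X <+: Y ∨ Y <+: X

/-- The instance `(h, g)` with alphabet `A = {0, …, H.length - 1}`, where `h` maps the letter `i` to
`H[i]` and `g` maps the letter `i` to `G[i]`, is a unique equality continuation instance. -/
def UEC (H G : List (List ℕ)) : Prop :=
  ∀ u : List ℕ, (∀ i ∈ u, i < H.length) →
    ∀ a b : ℕ, a < H.length → b < H.length → a ≠ b →
      Comparable (im H (u ++ [a])) (im G (u ++ [a])) →
      Comparable (im H (u ++ [b])) (im G (u ++ [b])) →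
      im H u = im G u

/-! ## Doubling the end dominoes -/

section

variable {S : Type} (P : S → S → List S) (K : S) [Fintype S] (c : S × Bool → ℕ)

/-- the words produced by the dominoes, with doubled end dominoes -/
noncomputable def H2 (w : List ℕ) : List (List ℕ) := UecPcp.H P c w ++ [[1], [1]]

/-- the words consumed by the dominoes, with doubled end dominoes -/
noncomputable def G2 : List (List ℕ) := UecPcp.G K c ++ [[c (K, false), 1], [c (K, true), 1]]

/-- the original of a letter -/
noncomputable def orig (w : List ℕ) (i : ℕ) : ℕ :=
  if i < (UecPcp.H P c w).length then i else i - (UecPcp.H P c w).length + 1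

theorem H2_length (w : List ℕ) : (H2 P c w).length = (UecPcp.H P c w).length + 2 := by
  simp [H2]

theorem G2_length (w : List ℕ) : (G2 K c).length = (H2 P c w).length := by
  simp [H2, G2, UecPcp.length_eq P K c w]

theorem three_le (w : List ℕ) : 3 ≤ (UecPcp.H P c w).length := by
  simp [UecPcp.H, UecPcp.Htail]

theorem orig_lt (w : List ℕ) {i : ℕ} (hi : i < (H2 P c w).length) :
    orig P c w i < (UecPcp.H P c w).length := by
  have := three_le P c w
  rw [H2_length] at hi
  unfold orig
  split_ifs <;> omega

theorem getD_H2 (w : List ℕ) {i : ℕ} (hi : i < (H2 P c w).length) :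
    (H2 P c w).getD i [] = (UecPcp.H P c w).getD (orig P c w i) [] := by
  have h3 := three_le P c w
  unfold orig
  split_ifs with h
  · simp [H2, List.getD_eq_getElem?_getD, List.getElem?_append_left h]
  · rw [H2_length] at hi
    have e : i = (UecPcp.H P c w).length ∨ i = (UecPcp.H P c w).length + 1 := by omega
    rcases e with rfl | rfl
    · simp [H2, UecPcp.H, UecPcp.Htail]
    · simp [H2, UecPcp.H, UecPcp.Htail]

theorem getD_G2 (w : List ℕ) {i : ℕ} (hi : i < (H2 P c w).length) :
    (G2 K c).getD i [] = (UecPcp.G K c).getD (orig P c w i) [] := by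
  have h3 := three_le P c w
  have hl := UecPcp.length_eq P K c w
  unfold orig
  split_ifs with h
  · rw [hl] at h
    simp [G2, List.getD_eq_getElem?_getD, List.getElem?_append_left h]
  · rw [H2_length] at hi
    have e : i = (UecPcp.H P c w).length ∨ i = (UecPcp.H P c w).length + 1 := by omega
    rcases e with rfl | rfl
    · rw [hl]
      simp [G2, UecPcp.G]
    · rw [hl]
      simp [G2, UecPcp.G]

theorem im_H2 (w : List ℕ) {u : List ℕ} (hu : ∀ i ∈ u, i < (H2 P c w).length) :
    im (H2 P c w) u = UecPcp.app (UecPcp.H P c w) (u.map (orig P c w)) := by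
  unfold im UecPcp.app
  rw [List.flatMap_map]
  apply List.flatMap_congr
  intro i hi
  exact getD_H2 P c w (hu i hi)

theorem im_G2 (w : List ℕ) {u : List ℕ} (hu : ∀ i ∈ u, i < (H2 P c w).length) :
    im (G2 K c) u = UecPcp.app (UecPcp.G K c) (u.map (orig P c w)) := by
  unfold im UecPcp.app
  rw [List.flatMap_map]
  apply List.flatMap_congr
  intro i hi
  exact getD_G2 P K c w (hu i hi)

theorem reach_word (w0 : List (S × Bool)) {z : List (S × Bool)}
    (hz : QReach (UecPcp.Phat P) w0 z) :
    ∃ u : List ℕ, (∀ i ∈ u, i < (UecPcp.H P c (w0.map c)).length) ∧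
      UecPcp.app (UecPcp.H P c (w0.map c)) u = UecPcp.app (UecPcp.G K c) u ++ z.map c := by
  induction hz with
  | refl =>
    refine ⟨[0], by simp [UecPcp.H], ?_⟩
    simp [UecPcp.app, UecPcp.H, UecPcp.G]
  | tail _ hs ih =>
    obtain ⟨u, hu, he⟩ := ih
    cases hs with
    | mk x y t =>
      obtain ⟨i, hi, hg, hh⟩ := UecPcp.dom_exists P K c (w0.map c) x y
      refine ⟨u ++ [i], ?_, ?_⟩
      · intro j hj
        simp only [List.mem_append, List.mem_singleton] at hj
        rcases hj with hj | rfl
        · exact hu j hj
        · exact hi
      · rw [UecPcp.app_snoc, UecPcp.app_snoc, he, hg, hh]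
        simp

variable (hc : Function.Injective c) (hc2 : ∀ x, 2 ≤ c x)
variable (hP1 : ∀ x y, 2 ≤ (P x y).length ∨ P x y = [K])
variable (hP2 : ∀ y, (P K y).head? ≠ some y)

include hc hc2 hP1 hP2 in
/-- the doubled instance has unique equality continuation iff no end configuration is reached -/
theorem uec_iff (w0 : List (S × Bool)) (hw : 2 ≤ w0.length) :
    UEC (H2 P c (w0.map c)) (G2 K c) ↔ ¬ ∃ b, QReach (UecPcp.Phat P) w0 [(K, b)] := by
  have h3 := three_le P c (w0.map c)
  have hl2 := H2_length P c (w0.map c)
  constructor
  · rintro huec ⟨b, hb⟩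
    obtain ⟨u, hu, he⟩ := reach_word P K c w0 hb
    -- the two copies of the end domino
    let a₁ : ℕ := if b then 2 else 1
    let a₂ : ℕ := (UecPcp.H P c (w0.map c)).length + (if b then 1 else 0)
    have ha₁ : a₁ < (H2 P c (w0.map c)).length := by
      rw [hl2]; cases b <;> simp [a₁] <;> omega
    have ha₂ : a₂ < (H2 P c (w0.map c)).length := by
      rw [hl2]; cases b <;> simp [a₂]
    have ho₁ : orig P c (w0.map c) a₁ = a₁ := by
      unfold orig
      rw [if_pos]
      cases b <;> simp [a₁] <;> omega
    have ho₂ : orig P c (w0.map c) a₂ = a₁ := by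
      unfold orig
      rw [if_neg (by simp [a₂])]
      cases b <;> simp [a₁, a₂]
    have hne : a₁ ≠ a₂ := by
      cases b <;> simp only [a₁, a₂] <;> simp <;> omega
    have hG : (UecPcp.G K c).getD a₁ [] = [c (K, b), 1] := by
      cases b <;> simp [a₁, UecPcp.G]
    have hH : (UecPcp.H P c (w0.map c)).getD a₁ [] = [1] := by
      cases b <;> simp [a₁, UecPcp.H, UecPcp.Htail]
    have hu' : ∀ i ∈ u, i < (H2 P c (w0.map c)).length := fun i hi => by
      have := hu i hi
      omega
    have hou : u.map (orig P c (w0.map c)) = u := by
      conv_rhs => rw [← List.map_id u]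
      apply List.map_congr_left
      intro i hi
      unfold orig
      rw [if_pos (hu i hi)]
      rfl
    have hcomp : ∀ a, a < (H2 P c (w0.map c)).length → orig P c (w0.map c) a = a₁ →
        Comparable (im (H2 P c (w0.map c)) (u ++ [a])) (im (G2 K c) (u ++ [a])) := by
      intro a ha hoa
      have hua : ∀ i ∈ u ++ [a], i < (H2 P c (w0.map c)).length := by
        intro i hi
        simp only [List.mem_append, List.mem_singleton] at hi
        rcases hi with hi | rfl
        · exact hu' i hi
        · exact ha
      rw [im_H2 P c _ hua, im_G2 P K c _ hua, List.map_append, hou, List.map_singleton, hoa,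
        UecPcp.app_snoc, UecPcp.app_snoc, he, hG, hH]
      left
      simp
    have := huec u hu' a₁ a₂ ha₁ ha₂ hne (hcomp _ ha₁ ho₁) (hcomp _ ha₂ ho₂)
    rw [im_H2 P c _ hu', im_G2 P K c _ hu', hou, he] at this
    simp at this
  · intro hno u hu a b ha hb hab h1 h2
    have hlen := UecPcp.length_eq P K c (w0.map c)
    have hua : ∀ x, x < (H2 P c (w0.map c)).length →
        ∀ i ∈ u ++ [x], i < (H2 P c (w0.map c)).length := by
      intro x hx i hi
      simp only [List.mem_append, List.mem_singleton] at hi
      rcases hi with hi | rfl
      · exact hu i hi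
      · exact hx
    rw [im_H2 P c _ (hua a ha), im_G2 P K c _ (hua a ha), List.map_append, List.map_singleton,
      UecPcp.app_snoc, UecPcp.app_snoc] at h1
    rw [im_H2 P c _ (hua b hb), im_G2 P K c _ (hua b hb), List.map_append, List.map_singleton,
      UecPcp.app_snoc, UecPcp.app_snoc] at h2
    rw [im_H2 P c _ hu, im_G2 P K c _ hu]
    have hu' : ∀ i ∈ u.map (orig P c (w0.map c)), i < (UecPcp.H P c (w0.map c)).length := by
      intro i hi
      rw [List.mem_map] at hi
      obtain ⟨j, hj, rfl⟩ := hi
      exact orig_lt P c _ (hu j hj)
    rcases UecPcp.inv P K c hc hc2 hP1 hP2 w0 hw _ hu' (UecPcp.comp_prefix h1) with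
      h | ⟨z, hz, hgood, hr⟩
    · exact h
    · exfalso
      rw [hz, List.append_assoc] at h1 h2
      have h1' := UecPcp.comp_append_left.1 h1
      have h2' := UecPcp.comp_append_left.1 h2
      rcases hgood with hgood | ⟨b', rfl⟩
      · match z, hgood, h1', h2' with
        | x :: y :: t, _, h1', h2' =>
          have ea := UecPcp.next_two P K c hc hc2 _ (orig_lt P c _ ha) h1'
          have eb := UecPcp.next_two P K c hc hc2 _ (orig_lt P c _ hb) h2'
          have e1 := UecPcp.G_inj K c hc hc2 (hlen ▸ orig_lt P c _ ha) (hlen ▸ orig_lt P c _ hb)
            (ea.1.trans eb.1.symm)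
          -- the copies are end dominoes
          have key : ∀ d, d < (H2 P c (w0.map c)).length →
              (UecPcp.G K c).getD (orig P c (w0.map c) d) [] = [c x, c y] →
              d < (UecPcp.H P c (w0.map c)).length := by
            intro d hd hG
            by_contra hge
            have h5 : d = (UecPcp.H P c (w0.map c)).length ∨
                d = (UecPcp.H P c (w0.map c)).length + 1 := by omega
            have h6 := hc2 y
            rcases h5 with rfl | rfl
            · simp [orig, UecPcp.G] at hG
              omega
            · simp [orig, UecPcp.G] at hG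
              omega
          have ka := key a ha ea.1
          have kb := key b hb eb.1
          apply hab
          simpa [orig, ka, kb] using e1
      · exact hno ⟨b', hr⟩

end

/-! ## The family of instances -/

theorem prod_head_ne {Γ Λ : Type} [Inhabited Γ] [Inhabited Λ] (M : TM0.Machine Γ Λ)
    (y : Queue.Sym Γ Λ) : (Queue.prod M .kill y).head? ≠ some y := by
  rcases y with b | ⟨r, b⟩ | _ | _
  · simp [Queue.prod]
  · intro h
    simp only [Queue.prod] at h
    split at h <;> simp at h
  · simp [Queue.prod]
  · simp [Queue.prod]

/-- Every recursively enumerable set is many-one reducible to the halting set. -/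
theorem universal {W : ℕ → Prop} (hW : REPred W) : ∃ g : ℕ → ℕ, Computable g ∧
    ∀ n, W n ↔ (Univ.u (g n)).Dom := by
  have hf : Partrec (fun m : ℕ => (Part.assert (W (Nat.unpair m).1) fun _ => Part.some ()).map
      (fun _ => 0)) :=
    Partrec.map (Partrec.comp hW (Computable.fst.comp Computable.unpair)) (Computable.const 0).to₂
  obtain ⟨c, hc⟩ := Nat.Partrec.Code.exists_code.1 (Partrec.nat_iff.1 hf)
  refine ⟨fun n => Encodable.encode (Nat.Partrec.Code.curry c n),
    Computable.encode.comp (Nat.Partrec.Code.primrec₂_curry.comp (Primrec.const c)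
      Primrec.id).to_comp, fun n => ?_⟩
  unfold Univ.u
  rw [Denumerable.ofNat_encode, Nat.Partrec.Code.eval_curry, hc]
  simp [Part.map, Part.assert]

/-- There are fixed words (over the finite alphabet `{0, …, m - 1}`) and a computable family of
words `w n` such that the instances `(w n :: H', G')` have unique equality continuation if and only
if the `n`-th computation does not halt. -/
theorem family : ∃ (m : ℕ) (H' G' : List (List ℕ)) (w : ℕ → List ℕ), Computable w ∧
    G'.length = H'.length + 1 ∧
    (∀ n, ∀ y ∈ w n, y < m) ∧ (∀ v ∈ H', ∀ y ∈ v, y < m) ∧ (∀ v ∈ G', ∀ y ∈ v, y < m) ∧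
    ∀ n, UEC (w n :: H') G' ↔ ¬ (Univ.u n).Dom := by
  classical
  obtain ⟨Λ, i1, i2, M, hM⟩ := Univ.exists_machine
  let S := Queue.Sym (TM2to1.Γ' PartrecToTM2.K' (fun _ => PartrecToTM2.Γ')) Λ
  have fK : Finite PartrecToTM2.K' := by
    refine Finite.of_injective (fun k : PartrecToTM2.K' => match k with
      | .main => (0 : Fin 4)
      | .rev => 1
      | .aux => 2
      | .stack => 3) ?_
    intro a b h
    cases a <;> cases b <;> simp_all
  have fG : Finite (TM2to1.Γ' PartrecToTM2.K' (fun _ => PartrecToTM2.Γ')) :=
    inferInstanceAs (Finite (Bool × (PartrecToTM2.K' → Option PartrecToTM2.Γ')))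
  have fS : Finite S := inferInstanceAs (Finite (Queue.Sym _ _))
  let _ : Fintype S := Fintype.ofFinite S
  let e := Fintype.equivFin (S × Bool)
  let c : S × Bool → ℕ := fun z => (e z : ℕ) + 2
  have hc : Function.Injective c := by
    intro a b hab
    have : (e a : ℕ) = (e b : ℕ) := by simpa [c] using hab
    exact e.injective (Fin.ext this)
  have hc2 : ∀ x, 2 ≤ c x := fun x => by simp [c]
  let P : S → S → List S := Queue.prod M
  have hP1 : ∀ x y, 2 ≤ (P x y).length ∨ P x y = [Queue.Sym.kill] := prod_length M
  have hP2 : ∀ y, (P Queue.Sym.kill y).head? ≠ some y := prod_head_ne M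
  let tape : ℕ → List (TM2to1.Γ' PartrecToTM2.K' (fun _ => PartrecToTM2.Γ')) := fun n =>
    Univ.sym true .cons :: (PartrecToTM2.trNat n).reverse.map (Univ.sym false)
  let w0 : ℕ → List (S × Bool) := fun n => (initWord (tape n)).map (fun z => (z, false))
  have hw0 : ∀ n, 2 ≤ (w0 n).length := fun n => by
    simp only [w0, List.length_map]
    exact initWord_length _
  let m := Fintype.card (S × Bool) + 2
  have hcm : ∀ x, c x < m := fun x => by
    have := (e x).2
    simp only [c, m]
    omega
  refine ⟨m, UecPcp.Htail P c ++ [[1], [1]], G2 Queue.Sym.kill c, fun n => 0 :: (w0 n).map c,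
    ?_, ?_, ?_, ?_, ?_, ?_⟩
  · -- computability
    have hw : Computable (fun n => (w0 n).map c) := by
      have hd := Univ.digits_computable (fun a => c (Queue.Sym.cell (Univ.sym false a), false))
      have : (fun n => (w0 n).map c) = fun n =>
          (if (((PartrecToTM2.trNat n).map
              (fun a => c (Queue.Sym.cell (Univ.sym false a), false))).length + 1) % 2 = 0 then
            [c (Queue.Sym.mark, false), c (Queue.Sym.head default (Univ.sym true .cons), false)]
          else [c (Queue.Sym.mark, false), c (Queue.Sym.cell default, false),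
            c (Queue.Sym.head default (Univ.sym true .cons), false)]) ++
          ((PartrecToTM2.trNat n).map
            (fun a => c (Queue.Sym.cell (Univ.sym false a), false))).reverse := by
        funext n
        simp only [w0, tape, initWord, List.length_cons, List.length_map, List.length_reverse]
        split_ifs <;> simp [Function.comp_def]
      rw [this]
      have hlen := Computable.list_length.comp hd
      have hmod : Computable (fun n : ℕ => ((((PartrecToTM2.trNat n).map
              (fun a => c (Queue.Sym.cell (Univ.sym false a), false))).length + 1) % 2)) :=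
        (Primrec.nat_mod.comp (Primrec.succ.comp Primrec.id) (Primrec.const 2)).to_comp.comp hlen
      have hite : Computable (fun n : ℕ => (if (((PartrecToTM2.trNat n).map
              (fun a => c (Queue.Sym.cell (Univ.sym false a), false))).length + 1) % 2 = 0 then
            [c (Queue.Sym.mark, false), c (Queue.Sym.head default (Univ.sym true .cons), false)]
          else [c (Queue.Sym.mark, false), c (Queue.Sym.cell default, false),
            c (Queue.Sym.head default (Univ.sym true .cons), false)])) := by
        have hp : Primrec (fun m : ℕ => if m = 0 then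
            [c (Queue.Sym.mark, false), c (Queue.Sym.head default (Univ.sym true .cons), false)]
          else [c (Queue.Sym.mark, false), c (Queue.Sym.cell default, false),
            c (Queue.Sym.head default (Univ.sym true .cons), false)]) :=
          Primrec.ite (PrimrecRel.comp Primrec.eq Primrec.id (Primrec.const 0))
            (Primrec.const _) (Primrec.const _)
        exact hp.to_comp.comp hmod
      exact Computable.list_append.comp hite (Computable.list_reverse.comp hd)
    exact Computable.list_cons.comp (Computable.const 0) hw
  · have := G2_length P Queue.Sym.kill c []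
    rw [this]
    simp [H2, UecPcp.H]
  · intro n y hy
    simp only [List.mem_cons, List.mem_map] at hy
    rcases hy with rfl | ⟨x, -, rfl⟩
    · simp [m]
    · exact hcm x
  · intro v hv y hy
    simp only [UecPcp.Htail, List.cons_append, List.mem_cons, List.mem_append, List.mem_map,
      List.not_mem_nil, or_false] at hv
    have h1 : (1 : ℕ) < m := by simp [m]
    rcases hv with rfl | rfl | ⟨p, -, rfl⟩ | rfl | rfl
    · simpa using (List.mem_singleton.1 hy) ▸ h1
    · simpa using (List.mem_singleton.1 hy) ▸ h1
    · rw [List.mem_map] at hy
      obtain ⟨x, -, rfl⟩ := hy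
      exact hcm x
    · simpa using (List.mem_singleton.1 hy) ▸ h1
    · simpa using (List.mem_singleton.1 hy) ▸ h1
  · intro v hv y hy
    have h1 : (1 : ℕ) < m := by simp [m]
    have h0 : (0 : ℕ) < m := by simp [m]
    simp only [G2, UecPcp.G, List.cons_append, List.mem_cons, List.mem_append, List.mem_map,
      List.not_mem_nil, or_false] at hv
    rcases hv with rfl | rfl | rfl | ⟨p, -, rfl⟩ | rfl | rfl
    · rw [List.mem_singleton] at hy
      rw [hy]; exact h0
    all_goals
      simp only [List.mem_cons, List.not_mem_nil, or_false] at hy
      rcases hy with rfl | rfl <;> first | exact h1 | exact hcm _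
  · intro n
    rw [← hM n]
    have hrep : Rep (TM0.init (tape n) : TM0.Cfg _ Λ) (initWord (tape n)) :=
      rep_init (tape n) (by simp [tape])
    rw [← rep_halts M hrep, UecPcp.reach_iff P Queue.Sym.kill (initWord (tape n))]
    exact uec_iff P Queue.Sym.kill c hc hc2 hP1 hP2 (w0 n) (hw0 n)

/-- **The unique equality continuation property of PCP instances is undecidable.**
(1) No algorithm decides, given the finite lists `H = (h(0), …, h(k-1))` and
`G = (g(0), …, g(k-1))` of the images of the letters of `A = {0, …, k-1}`, whether `(h, g)` is a
unique equality continuation instance.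
(2) This remains so if everything except the single word `h(0)` is fixed: there are a finite alphabet
`{0, …, m-1}` and fixed lists `H'`, `G'` of words over it such that for every recursively enumerable
set `W` there is a computable map `n ↦ w n` to words over `{0, …, m-1}` with: `n ∈ W` if and only if
the instance `(w n :: H', G')` is not a unique equality continuation instance; and the set of the
words `v` for which `(v :: H', G')` is a unique equality continuation instance is not recursively
enumerable. -/
theorem result :
    (¬ ∃ D : List (List ℕ) × List (List ℕ) → Prop, ComputablePred D ∧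
      ∀ H G : List (List ℕ), H.length = G.length → (D (H, G) ↔ UEC H G)) ∧
    ∃ (m : ℕ) (H' G' : List (List ℕ)), G'.length = H'.length + 1 ∧
      (∀ v ∈ H', ∀ y ∈ v, y < m) ∧ (∀ v ∈ G', ∀ y ∈ v, y < m) ∧
      (∀ W : ℕ → Prop, REPred W → ∃ w : ℕ → List ℕ, Computable w ∧ (∀ n, ∀ y ∈ w n, y < m) ∧
        ∀ n, W n ↔ ¬ UEC (w n :: H') G') ∧
      ¬ REPred fun v : List ℕ => UEC (v :: H') G' := by
  obtain ⟨m, H', G', w, hw, hlen, hwm, hH, hG, h⟩ := family
  have hco : ¬ REPred fun v : List ℕ => UEC (v :: H') G' := by
    intro hre
    apply Univ.u_not_computable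
    refine ComputablePred.computable_iff_re_compl_re'.2 ⟨Univ.u_partrec.dom_re, ?_⟩
    have h2 : REPred fun n => UEC (w n :: H') G' := Partrec.comp hre hw
    exact h2.of_eq fun n => h n
  refine ⟨?_, m, H', G', hlen, hH, hG, ?_, hco⟩
  · rintro ⟨D, hD, hDs⟩
    apply Univ.u_not_computable
    have h1 : ManyOneReducible (fun n => ¬ (Univ.u n).Dom) D :=
      ⟨fun n => (w n :: H', G'), Computable.pair (Computable.list_cons.comp hw (Computable.const _))
        (Computable.const _), fun n =>
          (h n).symm.trans (hDs _ _ (by simp [hlen])).symm⟩
    have h2 := (ComputablePred.computable_of_manyOneReducible h1 hD).not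
    exact h2.of_eq fun n => by simp
  · intro W hW
    obtain ⟨g, hg, hWg⟩ := universal hW
    refine ⟨fun n => w (g n), hw.comp hg, fun n => hwm _, fun n => ?_⟩
    rw [hWg, h, not_not]

end Pool.Agent.Results.MP_c472bb_lc.Undecidable
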